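import Pool.Agent.H923R2.FP.Stubs

set_option autoImplicit false
set_option linter.unusedSectionVars false

open scoped ComplexConjugate

noncomputable section

namespace Pool.Agent.H923R2.FP.T_HX

open Pool.Agent.H923R2.FP

lemma sum_flatMap_map {α β M : Type} [AddCommMonoid M] (l : List α) (f : α → List β) (φ : β → M) :
    ((l.flatMap f).map φ).sum = (l.map fun x => ((f x).map φ).sum).sum := by
  induction l with
  | nil => simp
  | cons x l ih => simp [List.flatMap_cons, ih]

lemma sum_range_map {M : Type} [AddCommMonoid M] (n : ℕ) (f : ℕ → M) :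
    ((List.range n).map f).sum = ∑ i ∈ Finset.range n, f i := by
  induction n with
  | zero => simp
  | succ n ih => simp [List.range_succ, Finset.sum_range_succ, ih]

/-- the list -/
def lst {β : Type} (T : Finset F2) (M : ℕ) (E : F2 → ℕ → ℕ → β) : List β :=
  T.toList.flatMap fun g => (List.range M).flatMap fun m => (List.range M).map fun n => E g m n

lemma sum_lst {β M' : Type} [AddCommMonoid M'] (T : Finset F2) (M : ℕ) (E : F2 → ℕ → ℕ → β)
    (φ : β → M') : ((lst T M E).map φ).sum =
      ∑ g ∈ T, ∑ m ∈ Finset.range M, ∑ n ∈ Finset.range M, φ (E g m n) := by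
  unfold lst
  rw [sum_flatMap_map, Finset.sum_map_toList]
  refine Finset.sum_congr rfl fun g _ => ?_
  rw [sum_flatMap_map, sum_range_map]
  refine Finset.sum_congr rfl fun m _ => ?_
  rw [List.map_map, sum_range_map]
  rfl

lemma mem_lst {β : Type} (T : Finset F2) (M : ℕ) (E : F2 → ℕ → ℕ → β) (x : β)
    (hx : x ∈ lst T M E) : ∃ g m n, x = E g m n := by
  unfold lst at hx
  simp only [List.mem_flatMap, List.mem_map] at hx
  obtain ⟨g, -, m, -, n, -, h⟩ := hx
  exact ⟨g, m, n, h.symm⟩

section stars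

variable {Q R : Type} [Ring Q] [StarRing Q] [Algebra ℂ Q] [Ring R] [StarRing R] [Algebra ℂ R]

lemma stw_append (w w' : List (Lt Q R)) : stw (w ++ w') = stw w' ++ stw w := by
  simp [stw]

lemma stw_gw (u : unitary Q) (a : unitary R) (g : F2) : stw (gw u a g) = gw u a g⁻¹ := by
  unfold stw gw
  rw [FreeGroup.toWord_inv, FreeGroup.invRev, List.map_reverse, List.map_map, List.map_map]
  congr 1
  refine List.map_congr_left fun p _ => ?_
  obtain ⟨b, c⟩ := p
  cases b <;> cases c <;> simp [stl]

lemma Uc_comm (X : R) (m : ℕ) : X * Uc X m = Uc X m * X ∧ X * Uc X (m + 1) = Uc X (m + 1) * X := by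
  induction m with
  | zero => simp [Uc]
  | succ m ih =>
    refine ⟨ih.2, ?_⟩
    show X * (X * Uc X (m + 1) - Uc X m) = (X * Uc X (m + 1) - Uc X m) * X
    rw [mul_sub, sub_mul, ih.1, mul_assoc, ← ih.2]

lemma star_Uc (X : R) (hX : star X = X) (m : ℕ) :
    star (Uc X m) = Uc X m ∧ star (Uc X (m + 1)) = Uc X (m + 1) := by
  induction m with
  | zero => simp [Uc, hX]
  | succ m ih =>
    refine ⟨ih.2, ?_⟩
    show star (X * Uc X (m + 1) - Uc X m) = X * Uc X (m + 1) - Uc X m
    rw [star_sub, star_mul, ih.1, ih.2, hX, (Uc_comm X m).2]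

lemma stw_pw (u : unitary Q) (a : unitary R) (X : R) (hX : star X = X) (v : F2) (m : ℕ) :
    stw (pw u a X v m) = pw u a X v m := by
  unfold pw
  rw [stw_append]
  have h1 : stw (Lt.r (Uc X m) :: gw u a v⁻¹) = gw u a v ++ [Lt.r (Uc X m)] := by
    have : (Lt.r (Uc X m) :: gw u a v⁻¹ : List (Lt Q R)) = [Lt.r (Uc X m)] ++ gw u a v⁻¹ := rfl
    rw [this, stw_append, stw_gw, inv_inv]
    congr 1
    simp [stw, stl, (star_Uc X hX m).1]
  rw [h1, stw_gw]
  simp

end stars

theorem t_HX : S_HX := by
  intro A Q R _ _ _ _ _ _ _ ρ u a X v t κ M hX hκ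
  let E : F2 → ℕ → ℕ → ℂ × List (Lt Q R) × List (Lt Q R) := fun g m n =>
    ((t g : ℂ) * κ m n, gw u a g ++ pw u a X v m, pw u a X v n ++ gw u a g⁻¹)
  refine ⟨lst t.support M E, ?_, ?_, ?_, ?_, ?_⟩
  · intro x hx
    obtain ⟨g, m, n, rfl⟩ := mem_lst _ _ _ _ hx
    refine ⟨?_, ?_⟩
    · intro z hz
      rcases List.mem_append.1 hz with h | h
      · exact gw_noS u a g z h
      · exact pw_noS u a X v m z h
    · intro z hz
      rcases List.mem_append.1 hz with h | h
      · exact pw_noS u a X v n z h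
      · exact gw_noS u a g⁻¹ z h
  · intro π s
    rw [sum_lst]
    unfold AdK KK
    refine Finset.sum_congr rfl fun g _ => ?_
    simp only [Finset.mul_sum, Finset.sum_mul, Finset.smul_sum]
    refine Finset.sum_congr rfl fun m _ => Finset.sum_congr rfl fun n _ => ?_
    simp only [E, ev_append, ev_gw, ev_pw]
    rw [mul_smul_comm, smul_mul_assoc, smul_smul]
    simp only [mul_assoc]
  · intro π s F
    rw [sum_lst]
    refine Finset.sum_congr rfl fun g _ => ?_
    simp only [Finset.mul_sum]
    refine Finset.sum_congr rfl fun m _ => Finset.sum_congr rfl fun n _ => ?_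
    simp only [E, ev_append, ev_gw, ev_pw]
    ring
  · intro θ hθ
    unfold evx
    rw [List.map_map, sum_lst, star_sum]
    refine Finset.sum_congr rfl fun g _ => ?_
    rw [star_sum]
    simp only [star_sum]
    rw [Finset.sum_comm]
    refine Finset.sum_congr rfl fun m _ => Finset.sum_congr rfl fun n _ => ?_
    simp only [E, Function.comp_apply]
    rw [star_smul, star_ev hθ]
    congr 1
    · rw [hκ n m]
      simp
    · have hc : (Lt.s :: (pw u a X v m ++ gw u a g⁻¹) : List (Lt Q R)) =
          [Lt.s] ++ (pw u a X v m ++ gw u a g⁻¹) := rfl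
      have hc' : (Lt.s :: (pw u a X v n ++ gw u a g⁻¹) : List (Lt Q R)) =
          [Lt.s] ++ (pw u a X v n ++ gw u a g⁻¹) := rfl
      rw [hc, hc']
      simp only [stw_append, stw_gw, stw_pw u a X hX, inv_inv, ev_append, mul_assoc]
      rfl
  · intro θ hθ
    simp only [evx_cons, evx_nil, one_smul, add_zero]
    rw [star_ev hθ, stw_pw u a X hX]

end Pool.Agent.H923R2.FP.T_HX
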