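import Mathlib

set_option autoImplicit false

/-!
Certificate data for a simple arrangement of 16 lines without quadrangular faces.
A decision tree: `split` branches on the side of the next line, `bad` closes an empty
region, `tri` / `many` certify that a region has exactly three / at least five walls.
-/

namespace Pool.Agent.H79R2.Quad

/-- decision tree certificates -/
inductive Tree where
  | bad (a b c d : Nat) : Tree
  | tri (a b c : Nat) : Tree
  | many (l : List (Nat × Int × Int × Int)) : Tree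
  | split (p q : Tree) : Tree

/-- normals of the 16 lines -/
def V : List (Int × Int × Int) :=
  [(0, 0, 1), (113, 82, -140), (-43, 133, -140), (-140, 0, -140), (-43, -133, -140), (113, -82, -140), (137, -29, -307), (70, 121, -307), (-94, 104, -307), (-128, -57, -307), (15, -139, -307), (70, -121, 1), (137, 29, 1), (14, 139, 1), (-128, 57, 1), (-94, -104, 1)]

def t0 : Tree :=
  (.split (.split (.split (.split (.bad 0 1 3 9) (.split (.bad 0 1 2 10) (.split (.bad 0 1 8 11) (.split (.split (.split (.split (.bad 0 1 2 15) (.tri 0 6 14)) (.split (.bad 0 1 2 15) (.many [(0, 9, 20, -4), (5, 42, 50, 4), (6, 10, 20, 3), (8, 15, 20, 4), (14, 22, 50, 5)]))) (.bad 0 1 2 13)) (.bad 0 1 6 12))))) (.split (.bad 0 1 3 9) (.split (.bad 0 1 2 10) (.split (.bad 0 2 5 11) (.split (.split (.split (.bad 0 6 8 14) (.split (.bad 0 1 2 15) (.tri 5 6 8))) (.bad 0 1 2 13)) (.bad 0 1 6 12)))))) (.bad 0 2 6 7)) (.split (.split (.split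 (.bad 0 1 3 9) (.split (.bad 0 1 2 10) (.split (.bad 0 1 8 11) (.split (.split (.split (.split (.bad 0 1 2 15) (.many [(0, 105, 1600, -104), (3, -85, 400, 84), (6, 22, 50, 5), (7, -9, 50, 19), (8, 5, 20, 7)])) (.split (.bad 0 1 2 15) (.tri 6 8 14))) (.bad 0 1 2 13)) (.split (.split (.split (.bad 0 1 2 15) (.tri 3 7 12)) (.bad 0 1 12 14)) (.bad 0 1 2 13)))))) (.split (.bad 0 1 3 9) (.split (.bad 0 1 2 10) (.split (.bad 0 2 5 11) (.split (.split (.split (.split (.bad 0 1 2 15) (.tri 7 8 14)) (.split (.bad 0 1 2 15) (.many [(2, 20, 15, 9), (5, 200, 145, 76), (6, 15, 20, 4), (7, 12, 20, 12), (8, 10, 20, 3)]))) (.bad 0 1 2 13)) (.bad 0 7 8 12)))))) (.split (.split (.bad 0 1 3 9) (.split (.bad 0 1 2 10) (.split (.bad 0 1 8 11) (.split (.split (.split (.split (.bad 0 1 2 15) (.tri 7 8 12)) (.bad 0 7 8 14)) (.bad 0 1 2 13)) (.split (.split (.split (.bad 0 1 2 15) (.many [(1, -6, 20, 8), (3, -130, 400, 129), (7, -5,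 20, 6), (8, -87, 400, 163), (12, -9, 50, 19)])) (.bad 0 1 12 14)) (.bad 0 1 2 13)))))) (.split (.bad 0 1 3 9) (.split (.bad 0 1 2 10) (.split (.bad 0 2 5 11) (.split (.split (.split (.split (.bad 0 1 2 15) (.many [(1, 0, 20, 15), (2, 8, 20, 17), (7, 5, 20, 7), (8, -9, 50, 19), (12, -87, 400, 163)])) (.split (.bad 0 1 2 15) (.tri 2 7 14))) (.bad 0 1 2 13)) (.split (.split (.split (.bad 0 1 2 15) (.tri 1 8 12)) (.bad 0 1 12 14)) (.bad 0 1 2 13)))))))))

def t1 : Tree :=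
  (.split (.split (.bad 0 1 2 4) (.split (.bad 0 1 3 5) (.split (.bad 0 1 3 6) (.split (.split (.split (.split (.bad 0 1 2 10) (.split (.bad 0 1 3 11) (.split (.bad 0 1 9 12) (.split (.split (.split (.bad 0 1 2 15) (.tri 0 1 9)) (.bad 0 1 3 14)) (.bad 0 1 2 13))))) (.split (.bad 0 1 2 10) (.split (.bad 0 1 3 11) (.split (.split (.split (.split (.bad 0 1 2 15) (.tri 0 3 12)) (.bad 0 1 3 14)) (.bad 0 1 2 13)) (.split (.split (.split (.bad 0 1 2 15) (.many [(0, -169, 800, -78), (1, -14, 20, 3), (3, -5, 20, 6), (7, -130, 400, 129), (9, -126, 200, 15)])) (.bad 0 1 3 14)) (.bad 0 1 2 13)))))) (.bad 0 1 3 8)) (.split (.split (.bad 0 1 7 9) (.split (.bad 0 1 2 10) (.split (.bad 0 1 3 11) (.split (.bad 0 3 7 12) (.split (.split (.split (.bad 0 1 2 15) (.tri 1 3 7)) (.bad 0 1 3 14)) (.bad 0 1 2 13)))))) (.bad 0 1 3 8)))))) (.split (.bad 0 1 2 4) (.split (.split (.split (.split (.split (.bad 0 1 3 9) (.split (.bad 0 1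 2 10) (.split (.bad 0 1 8 11) (.split (.split (.split (.bad 0 1 5 14) (.split (.bad 0 1 2 15) (.tri 0 5 8))) (.bad 0 1 2 13)) (.bad 0 1 5 12))))) (.split (.bad 0 1 3 9) (.split (.bad 0 1 2 10) (.split (.split (.split (.split (.bad 0 1 5 14) (.split (.bad 0 1 2 15) (.tri 0 2 11))) (.bad 0 1 2 13)) (.bad 0 1 5 12)) (.split (.split (.split (.bad 0 1 5 14) (.split (.bad 0 1 2 15) (.many [(0, 20, 12, -2), (2, 20, 13, 7), (5, 15, 20, 4), (6, 200, 145, 76), (8, 42, 50, 4)]))) (.bad 0 1 2 13)) (.bad 0 1 5 12)))))) (.bad 0 2 5 7)) (.split (.split (.bad 0 5 6 8) (.split (.bad 0 1 3 9) (.split (.bad 0 1 2 10) (.split (.bad 0 2 6 11) (.split (.split (.split (.bad 0 1 5 14) (.split (.bad 0 1 2 15) (.tri 2 5 6))) (.bad 0 1 2 13)) (.bad 0 1 5 12)))))) (.bad 0 2 5 7))) t0)))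

def t2 : Tree :=
  (.split (.split (.split (.bad 0 1 2 8) (.split (.bad 0 1 2 9) (.split (.split (.split (.split (.split (.bad 0 1 5 14) (.split (.bad 0 1 4 15) (.tri 0 10 13))) (.split (.bad 0 1 5 14) (.split (.bad 0 1 4 15) (.many [(0, 20, -2, -4), (4, 20, -8, 1), (7, 20, -7, 3), (10, 20, -3, 3), (13, 100, -10, 9)])))) (.bad 0 1 2 12)) (.bad 0 1 10 11)) (.split (.split (.split (.split (.bad 0 1 5 14) (.split (.bad 0 1 4 15) (.many [(0, 20, 5, -1), (2, 50, 29, 12), (6, 20, 11, 8), (7, 20, 2, 7), (10, 100, -10, 9)]))) (.split (.bad 0 1 5 14) (.split (.bad 0 1 4 15) (.tri 7 10 13)))) (.bad 0 1 2 12)) (.split (.split (.split (.bad 0 1 5 14) (.split (.bad 0 1 4 15) (.tri 2 6 11))) (.bad 0 1 11 13)) (.bad 0 1 2 12)))))) (.split (.bad 0 1 2 8) (.split (.bad 0 1 2 9) (.split (.split (.split (.split (.bad 0 7 10 13) (.split (.bad 0 1 5 14) (.split (.bad 0 1 4 15) (.tri 4 7 10)))) (.bad 0 1 2 12)) (.bad 0 1 10 11))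 (.split (.split (.split (.split (.bad 0 1 5 14) (.split (.bad 0 1 4 15) (.tri 6 7 13))) (.split (.bad 0 1 5 14) (.split (.bad 0 1 4 15) (.many [(1, 20, -15, 9), (4, 200, -145, 76), (6, 20, -5, 11), (7, 20, -3, 3), (10, 20, -7, 3)])))) (.bad 0 1 2 12)) (.bad 0 6 7 11)))))) (.split (.split (.bad 0 1 2 8) (.split (.bad 0 1 2 9) (.split (.bad 0 1 6 10) (.split (.split (.split (.split (.bad 0 1 5 14) (.split (.bad 0 1 4 15) (.tri 6 7 11))) (.bad 0 6 7 13)) (.bad 0 1 2 12)) (.split (.split (.split (.bad 0 1 5 14) (.split (.bad 0 1 4 15) (.many [(2, 200, 145, 76), (5, 20, 15, 9), (6, 20, 13, 7), (7, 200, 117, 92), (11, 20, 11, 8)]))) (.bad 0 1 11 13)) (.bad 0 1 2 12)))))) (.split (.bad 0 1 2 8) (.split (.bad 0 1 2 9) (.split (.bad 0 1 6 10) (.split (.split (.split (.split (.bad 0 1 5 14) (.split (.bad 0 1 4 15) (.many [(1, 20, -1, 16), (5, 20, 7, 16), (6, 20, 2, 7), (7, 20, 11, 8), (11, 200, 117, 92)]))) (.split (.bad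 0 1 5 14) (.split (.bad 0 1 4 15) (.tri 1 6 13)))) (.bad 0 1 2 12)) (.split (.split (.split (.bad 0 1 5 14) (.split (.bad 0 1 4 15) (.tri 5 7 11))) (.bad 0 1 11 13)) (.bad 0 1 2 12))))))))

def t3 : Tree :=
  (.split (.split (.split (.split (.bad 0 1 4 10) (.split (.bad 0 1 2 11) (.split (.bad 0 1 3 12) (.split (.split (.split (.tri 0 7 15) (.many [(0, -200, 181, -55), (1, -126, 200, 15), (7, -20, 20, 4), (9, -14, 20, 3), (15, -50, 45, 6)])) (.bad 0 1 2 14)) (.bad 0 1 7 13))))) (.split (.bad 0 1 4 10) (.split (.bad 0 1 2 11) (.split (.bad 0 1 3 12) (.split (.split (.split (.bad 0 7 9 15) (.tri 1 7 9)) (.bad 0 1 2 14)) (.bad 0 1 7 13)))))) (.bad 0 1 7 8)) (.split (.split (.split (.bad 0 1 4 10) (.split (.bad 0 1 2 11) (.split (.bad 0 1 3 12) (.split (.split (.split (.many [(0, -20, 8, -1), (4, -20, 2, 4), (7, -50, 45, 6), (8, -50, 7, 19), (9, -20, 12, 8)]) (.tri 7 9 15)) (.bad 0 1 2 14)) (.split (.split (.tri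 4 8 13) (.bad 0 2 13 15)) (.bad 0 1 2 14)))))) (.split (.bad 0 1 4 10) (.split (.bad 0 1 2 11) (.split (.bad 0 1 3 12) (.split (.split (.split (.tri 8 9 15) (.many [(1, -130, 400, 129), (3, -6, 20, 8), (7, -14, 20, 3), (8, -17, 20, 14), (9, -20, 20, 4)])) (.bad 0 1 2 14)) (.bad 0 8 9 13)))))) (.split (.split (.bad 0 1 4 10) (.split (.bad 0 1 2 11) (.split (.bad 0 1 3 12) (.split (.split (.split (.tri 8 9 13) (.bad 0 8 9 15)) (.bad 0 1 2 14)) (.split (.split (.many [(2, -20, 0, 8), (4, -800, 0, 245), (8, -20, 1, 6), (9, -1600, 156, 639), (13, -50, 7, 19)]) (.bad 0 2 13 15)) (.bad 0 1 2 14)))))) (.split (.bad 0 1 4 10) (.split (.bad 0 1 2 11) (.split (.bad 0 1 3 12) (.split (.split (.split (.many [(2, -20, 6, 16), (3, -19, 16, 20), (8, -20, 12, 8), (9, -50, 7, 19), (13, -1600, 156, 639)]) (.tri 3 8 15)) (.bad 0 1 2 14)) (.split (.split (.tri 2 9 13) (.bad 0 2 13 15)) (.bad 0 1 2 14)))))))))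

def t4 : Tree :=
  (.split (.split (.split (.split (.split (.bad 0 1 3 12) (.split (.bad 0 1 10 13) (.split (.split (.tri 0 8 11) (.bad 0 2 3 15)) (.bad 0 1 8 14)))) (.split (.bad 0 1 3 12) (.split (.bad 0 1 10 13) (.split (.split (.many [(0, -50, -29, -12), (2, -20, -5, 1), (8, -20, -10, 3), (10, -20, -6, 3), (11, -20, -12, 2)]) (.bad 0 2 3 15)) (.bad 0 1 8 14))))) (.split (.bad 0 8 10 11) (.split (.bad 0 1 3 12) (.split (.bad 0 2 4 13) (.split (.split (.tri 2 8 10) (.bad 0 2 3 15)) (.bad 0 1 8 14)))))) (.bad 0 2 8 9)) (.split (.split (.split (.split (.bad 0 1 3 12) (.split (.bad 0 1 10 13) (.split (.split (.many [(0, -42, -50, -4), (5, -9, -20, 4), (8, -20, -12, 2), (9, -10, -20, 8), (10, -20, -17, 9)]) (.bad 0 2 3 15)) (.split (.tri 5 9 14) (.bad 0 2 3 15))))) (.split (.bad 0 1 3 12) (.split (.bad 0 1 10 13) (.split (.split (.tri 8 10 11) (.bad 0 2 3 15)) (.bad 0 3 11 14))))) (.split (.split (.bad 0 1 3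 12) (.split (.bad 0 2 4 13) (.split (.split (.tri 9 10 11) (.bad 0 2 3 15)) (.bad 0 9 10 14)))) (.split (.bad 0 1 3 12) (.split (.bad 0 2 4 13) (.split (.split (.many [(2, -800, 0, 245), (4, -20, 0, 8), (8, -20, -6, 3), (9, -20, -8, 11), (10, -20, -10, 3)]) (.bad 0 2 3 15)) (.bad 0 3 11 14)))))) (.split (.split (.split (.bad 0 1 3 12) (.split (.bad 0 1 10 13) (.split (.split (.tri 9 10 14) (.bad 0 2 3 15)) (.split (.many [(3, -6, -20, 8), (5, -130, -400, 129), (9, -8, -20, 6), (10, -175, -400, 173), (14, -10, -20, 8)]) (.bad 0 2 3 15))))) (.bad 0 9 10 11)) (.split (.split (.bad 0 1 3 12) (.split (.bad 0 2 4 13) (.split (.split (.many [(3, -14, -20, 19), (4, -20, -13, 19), (9, -20, -17, 9), (10, -10, -20, 8), (11, -20, -8, 11)]) (.bad 0 2 3 15)) (.split (.tri 3 10 14) (.bad 0 2 3 15))))) (.split (.bad 0 1 3 12) (.split (.bad 0 2 4 13) (.split (.split (.tri 4 9 11) (.bad 0 2 3 15)) (.bad 0 3 11 14))))))))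

def t5 : Tree :=
  (.split (.split (.bad 0 1 2 7) (.split (.bad 0 1 5 8) (.split (.split (.split (.split (.split (.bad 0 1 6 13) (.split (.bad 0 1 6 14) (.split (.tri 0 9 12) (.bad 0 2 9 15)))) (.split (.bad 0 1 6 13) (.split (.bad 0 1 6 14) (.split (.many [(0, 85, -400, -84), (3, -105, -1600, 104), (6, 0, -20, 3), (9, 3, -20, 3), (12, 169, -800, 78)]) (.bad 0 2 9 15))))) (.bad 0 1 5 11)) (.bad 0 3 9 10)) (.split (.split (.split (.split (.bad 0 1 6 13) (.split (.bad 0 1 6 14) (.split (.many [(0, 126, -200, -15), (1, 200, -181, 55), (6, 8, -20, 8), (9, 169, -800, 78), (10, 20, -19, 10)]) (.tri 1 10 15)))) (.split (.bad 0 1 6 13) (.split (.bad 0 1 6 14) (.split (.tri 6 9 12) (.bad 0 4 12 15))))) (.bad 0 1 5 11)) (.split (.split (.split (.bad 0 1 6 13) (.split (.bad 0 1 6 14) (.split (.tri 6 10 15) (.many [(1, 200, -145, 76), (4, 20, -15, 9), (6, 200, -178, 107), (10, 20, -16, 8), (15, 20, -19, 10)])))) (.bad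 0 6 10 12)) (.bad 0 1 5 11)))))) (.split (.bad 0 1 2 7) (.split (.bad 0 1 5 8) (.split (.split (.split (.split (.bad 0 6 9 12) (.split (.bad 0 1 10 13) (.split (.bad 0 3 5 14) (.split (.tri 3 6 9) (.bad 0 2 9 15))))) (.bad 0 1 5 11)) (.bad 0 3 9 10)) (.split (.split (.split (.split (.bad 0 1 10 13) (.split (.bad 0 3 5 14) (.split (.tri 6 10 12) (.bad 0 6 10 15)))) (.split (.bad 0 1 10 13) (.split (.bad 0 3 5 14) (.split (.many [(3, -130, -400, 129), (5, -6, -20, 8), (6, 3, -20, 3), (9, 0, -20, 3), (10, 1, -20, 10)]) (.bad 0 4 12 15))))) (.bad 0 1 5 11)) (.split (.split (.split (.bad 0 2 4 13) (.split (.bad 0 3 5 14) (.split (.many [(4, 15, -20, 19), (5, 5, -20, 17), (6, 20, -19, 10), (10, 8, -20, 8), (12, 1, -20, 10)]) (.tri 4 6 15)))) (.split (.bad 0 2 4 13) (.split (.bad 0 3 5 14) (.split (.tri 5 10 12) (.bad 0 4 12 15))))) (.bad 0 1 5 11)))))))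

def t6 : Tree :=
  (.split (.split (.split (.bad 0 1 2 7) (.split (.bad 0 1 5 8) (.split (.bad 0 3 4 9) (.split (.bad 0 1 4 10) (.split (.split (.split (.bad 0 1 6 13) (.split (.bad 0 1 6 14) (.split (.bad 0 4 6 15) (.tri 1 4 6)))) (.bad 0 4 5 12)) (.bad 0 1 5 11)))))) (.split (.bad 0 1 2 7) (.split (.bad 0 1 5 8) (.split (.bad 0 3 4 9) (.split (.bad 0 1 4 10) (.split (.split (.split (.split (.bad 0 3 5 14) (.split (.bad 0 5 13 15) (.tri 1 5 13))) (.split (.bad 0 3 5 14) (.split (.tri 4 5 15) (.many [(1, 20, -5, 11), (4, 200, -178, 107), (5, 14, -6, 20), (6, 20, -15, 9), (13, 20, -1, 16)])))) (.bad 0 4 5 12)) (.bad 0 1 5 11))))))) (.split (.bad 0 1 5 6) (.split (.bad 0 1 2 7) (.split (.bad 0 2 3 8) (.split (.bad 0 3 4 9) (.split (.bad 0 1 4 10) (.split (.split (.split (.split (.split (.many [(11, -1, 2, 200), (12, -1, 0, 100), (13, 0, -1, 100), (14, 1, 0, 100), (15, 1, 1, 100)]) (.tri 11 14 15)) (.split (.tri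 13 14 15) (.many [(1, 20, 7, 16), (5, 20, -1, 16), (11, 10, 12, 20), (13, 14, -6, 20), (14, 1, 1, 100)]))) (.split (.split (.tri 12 13 14) (.bad 0 13 14 15)) (.split (.many [(4, 5, -20, 17), (5, 15, -20, 19), (12, -2, -16, 20), (13, 1, 0, 100), (14, 0, -1, 100)]) (.tri 5 13 15)))) (.split (.split (.split (.tri 11 12 13) (.bad 0 11 12 15)) (.bad 0 12 13 14)) (.split (.split (.many [(3, -20, -13, 19), (4, -14, -20, 19), (11, -15, -3, 20), (12, 0, -1, 100), (13, -1, 0, 100)]) (.bad 0 11 12 15)) (.split (.tri 4 12 14) (.bad 0 11 12 15))))) (.split (.split (.split (.split (.tri 11 12 15) (.many [(1, 8, 20, 17), (2, 0, 20, 15), (11, 1, 1, 100), (12, -8, 14, 20), (14, 10, 12, 20)])) (.split (.bad 0 11 14 15) (.tri 1 11 14))) (.bad 0 11 12 13)) (.split (.split (.split (.many [(2, -19, 16, 20), (3, -20, 6, 16), (11, -1, 0, 100), (12, -1, 2, 200), (13, -15, -3, 20)]) (.tri 2 12 15)) (.bad 0 11 12 14)) (.split (.split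 (.tri 3 11 13) (.bad 0 11 13 15)) (.bad 0 11 12 14)))))))))))

def t7 : Tree :=
  (.split (.split (.split (.split (.split (.bad 0 1 2 7) (.split (.bad 0 1 5 8) (.split (.split (.split (.split (.bad 0 1 3 12) (.split (.bad 0 1 6 13) (.split (.bad 0 1 6 14) (.split (.tri 0 3 6) (.bad 0 2 3 15))))) (.bad 0 1 5 11)) (.bad 0 3 5 10)) (.bad 0 3 6 9)))) (.split (.bad 0 1 2 7) (.split (.bad 0 1 5 8) (.split (.split (.split (.split (.bad 0 1 3 12) (.split (.bad 0 1 10 13) (.split (.split (.tri 0 5 14) (.bad 0 2 3 15)) (.split (.many [(0, -22, -50, -5), (3, 0, -20, 3), (5, -8, -20, 6), (6, -105, -1600, 104), (9, -130, -400, 129)]) (.bad 0 2 3 15))))) (.bad 0 1 5 11)) (.bad 0 3 5 10)) (.split (.split (.split (.bad 0 1 3 12) (.split (.bad 0 1 10 13) (.split (.bad 0 5 9 14) (.split (.tri 3 5 9) (.bad 0 2 3 15))))) (.bad 0 1 5 11)) (.bad 0 3 5 10)))))) (.split (.bad 0 1 5 6) (.split (.bad 0 1 2 7) t4))) (.split (.bad 0 3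 4 5) (.split (.bad 0 1 5 6) (.split (.bad 0 1 2 7) (.split (.bad 0 2 4 8) (.split (.split (.bad 0 1 4 10) (.split (.bad 0 4 9 11) (.split (.bad 0 1 3 12) (.split (.bad 0 2 9 13) (.split (.split (.tri 2 4 9) (.bad 0 2 3 15)) (.bad 0 3 4 14)))))) (.split (.bad 0 1 4 10) (.split (.split (.bad 0 1 3 12) (.split (.bad 0 3 11 13) (.split (.split (.tri 3 4 11) (.bad 0 2 3 15)) (.bad 0 3 4 14)))) (.split (.bad 0 1 3 12) (.split (.split (.split (.tri 2 3 13) (.bad 0 2 3 15)) (.bad 0 3 4 14)) (.split (.split (.many [(2, -1600, 156, 639), (3, -15, -3, 20), (4, -20, -8, 11), (9, -20, 0, 8), (11, -20, -13, 19)]) (.bad 0 2 3 15)) (.bad 0 3 4 14)))))))))))) (.split (.split t5 (.split (.bad 0 1 5 6) (.split (.bad 0 1 2 7) (.split (.bad 0 2 3 8) (.split (.bad 0 3 5 9) (.split (.split (.split (.bad 0 5 10 12) (.split (.bad 0 1 10 13) (.split (.bad 0 3 10 14) (.split (.tri 3 5 10) (.bad 0 4 5 15))))) (.bad 0 3 4 11)) (.split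 (.split (.split (.bad 0 2 4 13) (.split (.bad 0 4 12 14) (.split (.tri 4 5 12) (.bad 0 4 5 15)))) (.split (.bad 0 2 4 13) (.split (.split (.tri 3 4 14) (.bad 0 4 5 15)) (.split (.many [(3, -175, -400, 173), (4, -2, -16, 20), (5, 1, -20, 10), (10, -6, -20, 8), (12, 5, -20, 17)]) (.bad 0 4 5 15))))) (.bad 0 3 4 11)))))))) t6))

def t8 : Tree :=
  (.split (.split t1 (.split (.bad 0 1 2 3) (.split (.split (.split (.split (.split (.bad 0 1 2 8) (.split (.bad 0 1 2 9) (.split (.split (.split (.split (.bad 0 1 4 13) (.split (.bad 0 1 4 14) (.split (.bad 0 1 7 15) (.tri 0 4 7)))) (.bad 0 1 2 12)) (.bad 0 1 4 11)) (.bad 0 4 7 10)))) (.split (.bad 0 1 2 8) (.split (.bad 0 1 2 9) (.split (.split (.split (.split (.bad 0 1 4 13) (.split (.bad 0 1 4 14) (.split (.tri 0 1 15) (.many [(0, 50, -45, -6), (1, 20, -16, 8), (4, 20, -7, 3), (7, 20, -8, 1), (10, 200, -145, 76)])))) (.bad 0 1 2 12)) (.bad 0 1 4 11)) (.split (.split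 (.split (.bad 0 1 4 13) (.split (.bad 0 1 4 14) (.split (.bad 0 1 10 15) (.tri 1 4 10)))) (.bad 0 1 2 12)) (.bad 0 1 4 11)))))) (.bad 0 1 4 6)) (.bad 0 1 4 5)) (.split t2 (.split (.bad 0 2 5 6) (.split (.split (.bad 0 1 2 8) (.split (.bad 0 1 2 9) (.split (.bad 0 1 5 10) (.split (.bad 0 5 7 11) (.split (.split (.split (.bad 0 2 7 14) (.split (.bad 0 1 4 15) (.tri 2 5 7))) (.bad 0 1 5 13)) (.bad 0 1 2 12)))))) (.split (.bad 0 1 2 8) (.split (.bad 0 1 2 9) (.split (.bad 0 1 5 10) (.split (.split (.split (.split (.bad 0 1 11 14) (.split (.bad 0 1 4 15) (.tri 1 5 11))) (.bad 0 1 5 13)) (.bad 0 1 2 12)) (.split (.split (.split (.split (.bad 0 1 4 15) (.tri 1 2 14)) (.split (.bad 0 1 4 15) (.many [(1, 10, 12, 20), (2, 12, 20, 12), (5, 200, 117, 92), (7, 20, 15, 9), (11, 20, 7, 16)]))) (.bad 0 1 5 13)) (.bad 0 1 2 12)))))))))))) (.split (.split (.split (.split (.bad 0 1 2 5) (.split (.bad 0 1 2 6) (.split (.bad 0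 1 4 7) (.split (.split (.split (.split (.bad 0 1 2 11) (.split (.bad 0 1 3 12) (.split (.bad 0 1 10 13) (.split (.split (.tri 0 2 10) (.bad 0 2 4 15)) (.bad 0 1 2 14))))) (.split (.bad 0 1 2 11) (.split (.bad 0 1 3 12) (.split (.split (.split (.tri 0 4 13) (.bad 0 2 4 15)) (.bad 0 1 2 14)) (.split (.split (.many [(0, -100, 10, -9), (2, -20, -6, 3), (4, -20, 1, 6), (8, -800, 0, 245), (10, -20, -5, 1)]) (.bad 0 2 4 15)) (.bad 0 1 2 14)))))) (.bad 0 2 4 9)) (.split (.split (.bad 0 2 8 10) (.split (.bad 0 1 2 11) (.split (.bad 0 1 3 12) (.split (.bad 0 4 8 13) (.split (.split (.tri 2 4 8) (.bad 0 2 4 15)) (.bad 0 1 2 14)))))) (.bad 0 2 4 9)))))) (.split (.bad 0 1 2 5) (.split (.bad 0 1 2 6) t3))) (.split (.bad 0 2 3 4) (.split (.bad 0 1 2 5) (.split (.bad 0 1 2 6) (.split (.bad 0 1 3 7) (.split (.split (.bad 0 2 3 9) (.split (.bad 0 1 4 10) (.split (.bad 0 1 2 11) (.split (.bad 0 1 8 12) (.split (.split (.split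 (.bad 0 3 8 15) (.tri 1 3 8)) (.bad 0 1 2 14)) (.bad 0 2 3 13)))))) (.split (.bad 0 2 3 9) (.split (.bad 0 1 4 10) (.split (.bad 0 1 2 11) (.split (.split (.split (.split (.bad 0 2 12 15) (.tri 1 2 12)) (.bad 0 1 2 14)) (.bad 0 2 3 13)) (.split (.split (.split (.tri 2 3 15) (.many [(1, -87, 400, 163), (2, -8, 14, 20), (3, -17, 20, 14), (8, -6, 20, 8), (12, 0, 20, 15)])) (.bad 0 1 2 14)) (.bad 0 2 3 13)))))))))))) t7))

def t9 : Tree :=
  (.split (.split (.split (.split (.split (.split (.split (.split (.split (.split (.bad 0 11 12 14) (.split (.bad 0 11 13 15) (.tri 3 11 13))) (.split (.bad 0 11 12 14) (.split (.tri 2 12 15) (.many [(2, 19, -16, -20), (3, 20, -6, -16), (11, 1, 0, -100), (12, 1, -2, -200), (13, 15, 3, -20)])))) (.split (.bad 0 11 12 13) (.split (.split (.tri 1 11 14) (.bad 0 11 14 15)) (.split (.many [(1, -8, -20, -17), (2, 0, -20, -15), (11, -1, -1, -100), (12, 8, -14, -20), (14, -10, -12, -20)])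 (.tri 11 12 15))))) (.split (.split (.split (.split (.bad 0 11 12 15) (.tri 4 12 14)) (.split (.bad 0 11 12 15) (.many [(3, 20, 13, -19), (4, 14, 20, -19), (11, 15, 3, -20), (12, 0, 1, -100), (13, 1, 0, -100)]))) (.split (.bad 0 12 13 14) (.split (.bad 0 11 12 15) (.tri 11 12 13)))) (.split (.split (.split (.tri 5 13 15) (.many [(4, -5, 20, -17), (5, -15, 20, -19), (12, 2, 16, -20), (13, -1, 0, -100), (14, 0, 1, -100)])) (.split (.bad 0 13 14 15) (.tri 12 13 14))) (.split (.split (.many [(1, -20, -7, -16), (5, -20, 1, -16), (11, -10, -12, -20), (13, -14, 6, -20), (14, -1, -1, -100)]) (.tri 13 14 15)) (.split (.tri 11 14 15) (.many [(11, 1, -2, -200), (12, 1, 0, -100), (13, 0, 1, -100), (14, -1, 0, -100), (15, -1, -1, -100)])))))) (.bad 0 1 4 10)) (.bad 0 3 4 9)) (.bad 0 2 3 8)) (.bad 0 1 2 7)) (.bad 0 1 5 6)) (.split (.split (.split (.split (.split (.split (.bad 0 1 5 11) (.split (.bad 0 4 5 12) (.split (.split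 (.split (.many [(1, -20, 5, -11), (4, -200, 178, -107), (5, -14, 6, -20), (6, -20, 15, -9), (13, -20, 1, -16)]) (.tri 4 5 15)) (.bad 0 3 5 14)) (.split (.split (.tri 1 5 13) (.bad 0 5 13 15)) (.bad 0 3 5 14))))) (.bad 0 1 4 10)) (.bad 0 3 4 9)) (.bad 0 1 5 8)) (.bad 0 1 2 7)) (.split (.split (.split (.split (.split (.bad 0 1 5 11) (.split (.bad 0 4 5 12) (.split (.split (.split (.tri 1 4 6) (.bad 0 4 6 15)) (.bad 0 1 6 14)) (.bad 0 1 6 13)))) (.bad 0 1 4 10)) (.bad 0 3 4 9)) (.bad 0 1 5 8)) (.bad 0 1 2 7))))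

def t10 : Tree :=
  (.split (.split (.split (.split (.split (.split (.bad 0 1 5 11) (.split (.split (.split (.split (.bad 0 4 12 15) (.tri 5 10 12)) (.bad 0 3 5 14)) (.bad 0 2 4 13)) (.split (.split (.split (.tri 4 6 15) (.many [(4, -15, 20, -19), (5, -5, 20, -17), (6, -20, 19, -10), (10, -8, 20, -8), (12, -1, 20, -10)])) (.bad 0 3 5 14)) (.bad 0 2 4 13)))) (.split (.bad 0 1 5 11) (.split (.split (.split (.split (.bad 0 4 12 15) (.many [(3, 130, 400, -129), (5, 6, 20, -8), (6, -3, 20, -3), (9, 0, 20, -3), (10, -1, 20, -10)])) (.bad 0 3 5 14)) (.bad 0 1 10 13)) (.split (.split (.split (.bad 0 6 10 15) (.tri 6 10 12)) (.bad 0 3 5 14)) (.bad 0 1 10 13))))) (.split (.bad 0 3 9 10) (.split (.bad 0 1 5 11) (.split (.split (.split (.split (.bad 0 2 9 15) (.tri 3 6 9)) (.bad 0 3 5 14)) (.bad 0 1 10 13)) (.bad 0 6 9 12))))) (.bad 0 1 5 8)) (.bad 0 1 2 7)) (.split (.split (.split (.split (.split (.bad 0 1 5 11) (.split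 (.bad 0 6 10 12) (.split (.split (.split (.many [(1, -200, 145, -76), (4, -20, 15, -9), (6, -200, 178, -107), (10, -20, 16, -8), (15, -20, 19, -10)]) (.tri 6 10 15)) (.bad 0 1 6 14)) (.bad 0 1 6 13)))) (.split (.bad 0 1 5 11) (.split (.split (.split (.split (.bad 0 4 12 15) (.tri 6 9 12)) (.bad 0 1 6 14)) (.bad 0 1 6 13)) (.split (.split (.split (.tri 1 10 15) (.many [(0, -126, 200, 15), (1, -200, 181, -55), (6, -8, 20, -8), (9, -169, 800, -78), (10, -20, 19, -10)])) (.bad 0 1 6 14)) (.bad 0 1 6 13))))) (.split (.bad 0 3 9 10) (.split (.bad 0 1 5 11) (.split (.split (.split (.split (.bad 0 2 9 15) (.many [(0, -85, 400, 84), (3, 105, 1600, -104), (6, 0, 20, -3), (9, -3, 20, -3), (12, -169, 800, -78)])) (.bad 0 1 6 14)) (.bad 0 1 6 13)) (.split (.split (.split (.bad 0 2 9 15) (.tri 0 9 12)) (.bad 0 1 6 14)) (.bad 0 1 6 13)))))) (.bad 0 1 5 8)) (.bad 0 1 2 7)))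

def t11 : Tree :=
  (.split (.split (.split (.split (.split (.split (.split (.bad 0 3 11 14) (.split (.bad 0 2 3 15) (.tri 4 9 11))) (.bad 0 2 4 13)) (.bad 0 1 3 12)) (.split (.split (.split (.split (.bad 0 2 3 15) (.tri 3 10 14)) (.split (.bad 0 2 3 15) (.many [(3, 14, 20, -19), (4, 20, 13, -19), (9, 20, 17, -9), (10, 10, 20, -8), (11, 20, 8, -11)]))) (.bad 0 2 4 13)) (.bad 0 1 3 12))) (.split (.bad 0 9 10 11) (.split (.split (.split (.split (.bad 0 2 3 15) (.many [(3, 6, 20, -8), (5, 130, 400, -129), (9, 8, 20, -6), (10, 175, 400, -173), (14, 10, 20, -8)])) (.split (.bad 0 2 3 15) (.tri 9 10 14))) (.bad 0 1 10 13)) (.bad 0 1 3 12)))) (.split (.split (.split (.split (.split (.bad 0 3 11 14) (.split (.bad 0 2 3 15) (.many [(2, 800, 0, -245), (4, 20, 0, -8), (8, 20, 6, -3), (9, 20, 8, -11), (10, 20, 10, -3)]))) (.bad 0 2 4 13)) (.bad 0 1 3 12)) (.split (.split (.split (.bad 0 9 10 14) (.split (.bad 0 2 3 15)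 (.tri 9 10 11))) (.bad 0 2 4 13)) (.bad 0 1 3 12))) (.split (.split (.split (.split (.bad 0 3 11 14) (.split (.bad 0 2 3 15) (.tri 8 10 11))) (.bad 0 1 10 13)) (.bad 0 1 3 12)) (.split (.split (.split (.split (.bad 0 2 3 15) (.tri 5 9 14)) (.split (.bad 0 2 3 15) (.many [(0, 42, 50, 4), (5, 9, 20, -4), (8, 20, 12, -2), (9, 10, 20, -8), (10, 20, 17, -9)]))) (.bad 0 1 10 13)) (.bad 0 1 3 12))))) (.split (.bad 0 2 8 9) (.split (.split (.split (.split (.split (.bad 0 1 8 14) (.split (.bad 0 2 3 15) (.tri 2 8 10))) (.bad 0 2 4 13)) (.bad 0 1 3 12)) (.bad 0 8 10 11)) (.split (.split (.split (.split (.bad 0 1 8 14) (.split (.bad 0 2 3 15) (.many [(0, 50, 29, 12), (2, 20, 5, -1), (8, 20, 10, -3), (10, 20, 6, -3), (11, 20, 12, -2)]))) (.bad 0 1 10 13)) (.bad 0 1 3 12)) (.split (.split (.split (.bad 0 1 8 14) (.split (.bad 0 2 3 15) (.tri 0 8 11))) (.bad 0 1 10 13)) (.bad 0 1 3 12))))))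

def t12 : Tree :=
  (.split (.split t9 (.split (.split (.split (.split (.split (.split (.split (.bad 0 3 4 11) (.split (.split (.split (.split (.bad 0 4 5 15) (.many [(3, 175, 400, -173), (4, 2, 16, -20), (5, -1, 20, -10), (10, 6, 20, -8), (12, -5, 20, -17)])) (.split (.bad 0 4 5 15) (.tri 3 4 14))) (.bad 0 2 4 13)) (.split (.split (.split (.bad 0 4 5 15) (.tri 4 5 12)) (.bad 0 4 12 14)) (.bad 0 2 4 13)))) (.split (.bad 0 3 4 11) (.split (.split (.split (.split (.bad 0 4 5 15) (.tri 3 5 10)) (.bad 0 3 10 14)) (.bad 0 1 10 13)) (.bad 0 5 10 12)))) (.bad 0 3 5 9)) (.bad 0 2 3 8)) (.bad 0 1 2 7)) (.bad 0 1 5 6)) t10)) (.split (.split (.split (.split (.split (.split (.split (.split (.split (.split (.split (.bad 0 3 4 14) (.split (.bad 0 2 3 15) (.many [(2, 1600, -156, -639), (3, 15, 3, -20), (4, 20, 8, -11), (9, 20, 0, -8), (11, 20, 13, -19)]))) (.split (.bad 0 3 4 14) (.split (.bad 0 2 3 15) (.tri 2 3 13))))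 (.bad 0 1 3 12)) (.split (.split (.split (.bad 0 3 4 14) (.split (.bad 0 2 3 15) (.tri 3 4 11))) (.bad 0 3 11 13)) (.bad 0 1 3 12))) (.bad 0 1 4 10)) (.split (.split (.split (.split (.split (.bad 0 3 4 14) (.split (.bad 0 2 3 15) (.tri 2 4 9))) (.bad 0 2 9 13)) (.bad 0 1 3 12)) (.bad 0 4 9 11)) (.bad 0 1 4 10))) (.bad 0 2 4 8)) (.bad 0 1 2 7)) (.bad 0 1 5 6)) (.bad 0 3 4 5)) (.split (.split (.split t11 (.bad 0 1 2 7)) (.bad 0 1 5 6)) (.split (.split (.split (.split (.split (.bad 0 3 5 10) (.split (.bad 0 1 5 11) (.split (.split (.split (.split (.bad 0 2 3 15) (.tri 3 5 9)) (.bad 0 5 9 14)) (.bad 0 1 10 13)) (.bad 0 1 3 12)))) (.split (.bad 0 3 5 10) (.split (.bad 0 1 5 11) (.split (.split (.split (.split (.bad 0 2 3 15) (.many [(0, 22, 50, 5), (3, 0, 20, -3), (5, 8, 20, -6), (6, 105, 1600, -104), (9, 130, 400, -129)])) (.split (.bad 0 2 3 15) (.tri 0 5 14))) (.bad 0 1 10 13)) (.bad 0 1 3 12))))) (.bad 0 1 5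 8)) (.bad 0 1 2 7)) (.split (.split (.split (.bad 0 3 6 9) (.split (.bad 0 3 5 10) (.split (.bad 0 1 5 11) (.split (.split (.split (.split (.bad 0 2 3 15) (.tri 0 3 6)) (.bad 0 1 6 14)) (.bad 0 1 6 13)) (.bad 0 1 3 12))))) (.bad 0 1 5 8)) (.bad 0 1 2 7))))))

def t13 : Tree :=
  (.split (.split (.split (.split (.split (.split (.split (.split (.bad 0 1 2 14) (.split (.bad 0 2 13 15) (.tri 2 9 13))) (.split (.bad 0 1 2 14) (.split (.tri 3 8 15) (.many [(2, 20, -6, -16), (3, 19, -16, -20), (8, 20, -12, -8), (9, 50, -7, -19), (13, 1600, -156, -639)])))) (.bad 0 1 3 12)) (.bad 0 1 2 11)) (.bad 0 1 4 10)) (.split (.split (.split (.split (.split (.bad 0 1 2 14) (.split (.bad 0 2 13 15) (.many [(2, 20, 0, -8), (4, 800, 0, -245), (8, 20, -1, -6), (9, 1600, -156, -639), (13, 50, -7, -19)]))) (.split (.bad 0 1 2 14) (.split (.bad 0 8 9 15) (.tri 8 9 13)))) (.bad 0 1 3 12)) (.bad 0 1 2 11)) (.bad 0 1 4 10))) (.split (.split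 (.split (.split (.split (.bad 0 8 9 13) (.split (.bad 0 1 2 14) (.split (.many [(1, 130, -400, -129), (3, 6, -20, -8), (7, 14, -20, -3), (8, 17, -20, -14), (9, 20, -20, -4)]) (.tri 8 9 15)))) (.bad 0 1 3 12)) (.bad 0 1 2 11)) (.bad 0 1 4 10)) (.split (.split (.split (.split (.split (.bad 0 1 2 14) (.split (.bad 0 2 13 15) (.tri 4 8 13))) (.split (.bad 0 1 2 14) (.split (.tri 7 9 15) (.many [(0, 20, -8, 1), (4, 20, -2, -4), (7, 50, -45, -6), (8, 50, -7, -19), (9, 20, -12, -8)])))) (.bad 0 1 3 12)) (.bad 0 1 2 11)) (.bad 0 1 4 10)))) (.split (.bad 0 1 7 8) (.split (.split (.split (.split (.split (.bad 0 1 7 13) (.split (.bad 0 1 2 14) (.split (.tri 1 7 9) (.bad 0 7 9 15)))) (.bad 0 1 3 12)) (.bad 0 1 2 11)) (.bad 0 1 4 10)) (.split (.split (.split (.split (.bad 0 1 7 13) (.split (.bad 0 1 2 14) (.split (.many [(0, 200, -181, 55), (1, 126, -200, -15), (7, 20, -20, -4), (9, 14, -20, -3), (15, 50, -45, -6)]) (.tri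 0 7 15)))) (.bad 0 1 3 12)) (.bad 0 1 2 11)) (.bad 0 1 4 10)))))

def t14 : Tree :=
  (.split (.split (.split (.split (.split (.split (.split (.bad 0 1 2 12) (.split (.bad 0 1 11 13) (.split (.split (.tri 5 7 11) (.bad 0 1 4 15)) (.bad 0 1 5 14)))) (.split (.bad 0 1 2 12) (.split (.split (.split (.tri 1 6 13) (.bad 0 1 4 15)) (.bad 0 1 5 14)) (.split (.split (.many [(1, -20, 1, -16), (5, -20, -7, -16), (6, -20, -2, -7), (7, -20, -11, -8), (11, -200, -117, -92)]) (.bad 0 1 4 15)) (.bad 0 1 5 14))))) (.bad 0 1 6 10)) (.bad 0 1 2 9)) (.bad 0 1 2 8)) (.split (.split (.split (.split (.split (.bad 0 1 2 12) (.split (.bad 0 1 11 13) (.split (.split (.many [(2, -200, -145, -76), (5, -20, -15, -9), (6, -20, -13, -7), (7, -200, -117, -92), (11, -20, -11, -8)]) (.bad 0 1 4 15)) (.bad 0 1 5 14)))) (.split (.bad 0 1 2 12) (.split (.bad 0 6 7 13) (.split (.split (.tri 6 7 11) (.bad 0 1 4 15)) (.bad 0 1 5 14))))) (.bad 0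 1 6 10)) (.bad 0 1 2 9)) (.bad 0 1 2 8))) (.split (.split (.split (.split (.split (.bad 0 6 7 11) (.split (.bad 0 1 2 12) (.split (.split (.split (.many [(1, -20, 15, -9), (4, -200, 145, -76), (6, -20, 5, -11), (7, -20, 3, -3), (10, -20, 7, -3)]) (.bad 0 1 4 15)) (.bad 0 1 5 14)) (.split (.split (.tri 6 7 13) (.bad 0 1 4 15)) (.bad 0 1 5 14))))) (.split (.bad 0 1 10 11) (.split (.bad 0 1 2 12) (.split (.split (.split (.tri 4 7 10) (.bad 0 1 4 15)) (.bad 0 1 5 14)) (.bad 0 7 10 13))))) (.bad 0 1 2 9)) (.bad 0 1 2 8)) (.split (.split (.split (.split (.split (.bad 0 1 2 12) (.split (.bad 0 1 11 13) (.split (.split (.tri 2 6 11) (.bad 0 1 4 15)) (.bad 0 1 5 14)))) (.split (.bad 0 1 2 12) (.split (.split (.split (.tri 7 10 13) (.bad 0 1 4 15)) (.bad 0 1 5 14)) (.split (.split (.many [(0, -20, -5, 1), (2, -50, -29, -12), (6, -20, -11, -8), (7, -20, -2, -7), (10, -100, 10, -9)]) (.bad 0 1 4 15)) (.bad 0 1 5 14)))))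 (.split (.bad 0 1 10 11) (.split (.bad 0 1 2 12) (.split (.split (.split (.many [(0, -20, 2, 4), (4, -20, 8, -1), (7, -20, 7, -3), (10, -20, 3, -3), (13, -100, 10, -9)]) (.bad 0 1 4 15)) (.bad 0 1 5 14)) (.split (.split (.tri 0 10 13) (.bad 0 1 4 15)) (.bad 0 1 5 14)))))) (.bad 0 1 2 9)) (.bad 0 1 2 8))))

def t15 : Tree :=
  (.split (.split (.split (.split (.split (.split (.split (.split (.bad 0 1 2 13) (.split (.bad 0 1 12 14) (.split (.tri 1 8 12) (.bad 0 1 2 15)))) (.split (.bad 0 1 2 13) (.split (.split (.tri 2 7 14) (.bad 0 1 2 15)) (.split (.many [(1, 0, -20, -15), (2, -8, -20, -17), (7, -5, -20, -7), (8, 9, -50, -19), (12, 87, -400, -163)]) (.bad 0 1 2 15))))) (.bad 0 2 5 11)) (.bad 0 1 2 10)) (.bad 0 1 3 9)) (.split (.split (.split (.split (.split (.bad 0 1 2 13) (.split (.bad 0 1 12 14) (.split (.many [(1, 6, -20, -8), (3, 130, -400, -129), (7, 5, -20, -6), (8, 87, -400, -163), (12, 9, -50, -19)])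 (.bad 0 1 2 15)))) (.split (.bad 0 1 2 13) (.split (.bad 0 7 8 14) (.split (.tri 7 8 12) (.bad 0 1 2 15))))) (.bad 0 1 8 11)) (.bad 0 1 2 10)) (.bad 0 1 3 9))) (.split (.split (.split (.split (.split (.bad 0 7 8 12) (.split (.bad 0 1 2 13) (.split (.split (.many [(2, -20, -15, -9), (5, -200, -145, -76), (6, -15, -20, -4), (7, -12, -20, -12), (8, -10, -20, -3)]) (.bad 0 1 2 15)) (.split (.tri 7 8 14) (.bad 0 1 2 15))))) (.bad 0 2 5 11)) (.bad 0 1 2 10)) (.bad 0 1 3 9)) (.split (.split (.split (.split (.split (.bad 0 1 2 13) (.split (.bad 0 1 12 14) (.split (.tri 3 7 12) (.bad 0 1 2 15)))) (.split (.bad 0 1 2 13) (.split (.split (.tri 6 8 14) (.bad 0 1 2 15)) (.split (.many [(0, -105, -1600, 104), (3, 85, -400, -84), (6, -22, -50, -5), (7, 9, -50, -19), (8, -5, -20, -7)]) (.bad 0 1 2 15))))) (.bad 0 1 8 11)) (.bad 0 1 2 10)) (.bad 0 1 3 9)))) (.split (.bad 0 2 6 7) (.split (.split (.split (.split (.split (.bad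 0 1 6 12) (.split (.bad 0 1 2 13) (.split (.split (.tri 5 6 8) (.bad 0 1 2 15)) (.bad 0 6 8 14)))) (.bad 0 2 5 11)) (.bad 0 1 2 10)) (.bad 0 1 3 9)) (.split (.split (.split (.split (.bad 0 1 6 12) (.split (.bad 0 1 2 13) (.split (.split (.many [(0, -9, -20, 4), (5, -42, -50, -4), (6, -10, -20, -3), (8, -15, -20, -4), (14, -22, -50, -5)]) (.bad 0 1 2 15)) (.split (.tri 0 6 14) (.bad 0 1 2 15))))) (.bad 0 1 8 11)) (.bad 0 1 2 10)) (.bad 0 1 3 9)))))

def t16 : Tree :=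
  (.split (.split (.split t15 (.split (.split (.bad 0 2 5 7) (.split (.split (.split (.split (.split (.bad 0 1 5 12) (.split (.bad 0 1 2 13) (.split (.split (.tri 2 5 6) (.bad 0 1 2 15)) (.bad 0 1 5 14)))) (.bad 0 2 6 11)) (.bad 0 1 2 10)) (.bad 0 1 3 9)) (.bad 0 5 6 8))) (.split (.bad 0 2 5 7) (.split (.split (.split (.split (.split (.bad 0 1 5 12) (.split (.bad 0 1 2 13) (.split (.split (.many [(0, -20, -12, 2), (2, -20, -13, -7), (5, -15, -20, -4), (6, -200, -145, -76), (8, -42, -50, -4)]) (.bad 0 1 2 15)) (.bad 0 1 5 14)))) (.split (.bad 0 1 5 12) (.split (.bad 0 1 2 13) (.split (.split (.tri 0 2 11) (.bad 0 1 2 15)) (.bad 0 1 5 14))))) (.bad 0 1 2 10)) (.bad 0 1 3 9)) (.split (.split (.split (.split (.bad 0 1 5 12) (.split (.bad 0 1 2 13) (.split (.split (.tri 0 5 8) (.bad 0 1 2 15)) (.bad 0 1 5 14)))) (.bad 0 1 8 11)) (.bad 0 1 2 10)) (.bad 0 1 3 9)))))) (.bad 0 1 2 4)) (.split (.split (.split (.split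 (.split (.bad 0 1 3 8) (.split (.split (.split (.split (.split (.bad 0 1 2 13) (.split (.bad 0 1 3 14) (.split (.tri 1 3 7) (.bad 0 1 2 15)))) (.bad 0 3 7 12)) (.bad 0 1 3 11)) (.bad 0 1 2 10)) (.bad 0 1 7 9))) (.split (.bad 0 1 3 8) (.split (.split (.split (.split (.split (.bad 0 1 2 13) (.split (.bad 0 1 3 14) (.split (.many [(0, 169, -800, 78), (1, 14, -20, -3), (3, 5, -20, -6), (7, 130, -400, -129), (9, 126, -200, -15)]) (.bad 0 1 2 15)))) (.split (.bad 0 1 2 13) (.split (.bad 0 1 3 14) (.split (.tri 0 3 12) (.bad 0 1 2 15))))) (.bad 0 1 3 11)) (.bad 0 1 2 10)) (.split (.split (.split (.split (.bad 0 1 2 13) (.split (.bad 0 1 3 14) (.split (.tri 0 1 9) (.bad 0 1 2 15)))) (.bad 0 1 9 12)) (.bad 0 1 3 11)) (.bad 0 1 2 10))))) (.bad 0 1 3 6)) (.bad 0 1 3 5)) (.bad 0 1 2 4)))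

def t17 : Tree :=
  (.split (.split t12 (.split (.split (.split (.split (.split (.split (.split (.split (.split (.split (.split (.bad 0 2 3 13) (.split (.bad 0 1 2 14) (.split (.many [(1, 87, -400, -163), (2, 8, -14, -20), (3, 17, -20, -14), (8, 6, -20, -8), (12, 0, -20, -15)]) (.tri 2 3 15)))) (.split (.bad 0 2 3 13) (.split (.bad 0 1 2 14) (.split (.tri 1 2 12) (.bad 0 2 12 15))))) (.bad 0 1 2 11)) (.bad 0 1 4 10)) (.bad 0 2 3 9)) (.split (.split (.split (.split (.split (.bad 0 2 3 13) (.split (.bad 0 1 2 14) (.split (.tri 1 3 8) (.bad 0 3 8 15)))) (.bad 0 1 8 12)) (.bad 0 1 2 11)) (.bad 0 1 4 10)) (.bad 0 2 3 9))) (.bad 0 1 3 7)) (.bad 0 1 2 6)) (.bad 0 1 2 5)) (.bad 0 2 3 4)) (.split (.split (.split t13 (.bad 0 1 2 6)) (.bad 0 1 2 5)) (.split (.split (.split (.split (.split (.bad 0 2 4 9) (.split (.split (.split (.split (.split (.bad 0 1 2 14) (.split (.bad 0 2 4 15) (.tri 2 4 8))) (.bad 0 4 8 13)) (.bad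 0 1 3 12)) (.bad 0 1 2 11)) (.bad 0 2 8 10))) (.split (.bad 0 2 4 9) (.split (.split (.split (.split (.split (.bad 0 1 2 14) (.split (.bad 0 2 4 15) (.many [(0, 100, -10, 9), (2, 20, 6, -3), (4, 20, -1, -6), (8, 800, 0, -245), (10, 20, 5, -1)]))) (.split (.bad 0 1 2 14) (.split (.bad 0 2 4 15) (.tri 0 4 13)))) (.bad 0 1 3 12)) (.bad 0 1 2 11)) (.split (.split (.split (.split (.bad 0 1 2 14) (.split (.bad 0 2 4 15) (.tri 0 2 10))) (.bad 0 1 10 13)) (.bad 0 1 3 12)) (.bad 0 1 2 11))))) (.bad 0 1 4 7)) (.bad 0 1 2 6)) (.bad 0 1 2 5))))) (.split (.split (.split (.split (.split (.split (.split (.split (.split (.split (.split (.bad 0 1 2 12) (.split (.bad 0 1 5 13) (.split (.split (.many [(1, -10, -12, -20), (2, -12, -20, -12), (5, -200, -117, -92), (7, -20, -15, -9), (11, -20, -7, -16)]) (.bad 0 1 4 15)) (.split (.tri 1 2 14) (.bad 0 1 4 15))))) (.split (.bad 0 1 2 12) (.split (.bad 0 1 5 13) (.split (.split (.tri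 1 5 11) (.bad 0 1 4 15)) (.bad 0 1 11 14))))) (.bad 0 1 5 10)) (.bad 0 1 2 9)) (.bad 0 1 2 8)) (.split (.split (.split (.split (.split (.bad 0 1 2 12) (.split (.bad 0 1 5 13) (.split (.split (.tri 2 5 7) (.bad 0 1 4 15)) (.bad 0 2 7 14)))) (.bad 0 5 7 11)) (.bad 0 1 5 10)) (.bad 0 1 2 9)) (.bad 0 1 2 8))) (.bad 0 2 5 6)) t14) (.split (.bad 0 1 4 5) (.split (.bad 0 1 4 6) (.split (.split (.split (.split (.split (.bad 0 1 4 11) (.split (.bad 0 1 2 12) (.split (.split (.split (.tri 1 4 10) (.bad 0 1 10 15)) (.bad 0 1 4 14)) (.bad 0 1 4 13)))) (.split (.bad 0 1 4 11) (.split (.bad 0 1 2 12) (.split (.split (.split (.many [(0, -50, 45, 6), (1, -20, 16, -8), (4, -20, 7, -3), (7, -20, 8, -1), (10, -200, 145, -76)]) (.tri 0 1 15)) (.bad 0 1 4 14)) (.bad 0 1 4 13))))) (.bad 0 1 2 9)) (.bad 0 1 2 8)) (.split (.split (.split (.bad 0 4 7 10) (.split (.bad 0 1 4 11) (.split (.bad 0 1 2 12) (.split (.split (.split (.tri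 0 4 7) (.bad 0 1 7 15)) (.bad 0 1 4 14)) (.bad 0 1 4 13))))) (.bad 0 1 2 9)) (.bad 0 1 2 8)))))) (.bad 0 1 2 3)) t16))

def tAll : Tree :=
  (.split t8 t17)

end Pool.Agent.H79R2.Quad
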