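import Mathlib
import Pool.Agent.H79R2.QuadData

set_option autoImplicit false

/-!
Soundness of the decision-tree certificate for quadrangle-free simple line arrangements.
-/

namespace Pool.Agent.H79R2.Quad

abbrev V3 := Int × Int × Int

def dt (a b : V3) : Int := a.1 * b.1 + a.2.1 * b.2.1 + a.2.2 * b.2.2

def det (a b c : V3) : Int :=
  a.1 * (b.2.1 * c.2.2 - b.2.2 * c.2.1) - a.2.1 * (b.1 * c.2.2 - b.2.2 * c.1)
    + a.2.2 * (b.1 * c.2.1 - b.2.1 * c.1)

def ng (a : V3) : V3 := (-a.1, -a.2.1, -a.2.2)

def lg (L : List V3) (i : Nat) : V3 := L.getD i (0, 0, 0)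

/-- `0` is a positive combination of the four vectors -/
def bad4 (p q r s : V3) : Bool :=
  (decide (0 < det q r s) && decide (det p r s < 0) && decide (0 < det p q s) &&
      decide (det p q r < 0)) ||
  (decide (det q r s < 0) && decide (0 < det p r s) && decide (det p q s < 0) &&
      decide (0 < det p q r))

/-- `w` is a positive combination of `a b c` -/
def cone3 (a b c w : V3) : Bool :=
  (decide (0 < det a b c) && decide (0 < det w b c) && decide (0 < det a w c) &&
      decide (0 < det a b w)) ||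
  (decide (det a b c < 0) && decide (det w b c < 0) && decide (det a w c < 0) &&
      decide (det a b w < 0))

def triOk (L : List V3) (a b c : Nat) : Bool :=
  (List.range L.length).all fun i =>
    (i == a) || (i == b) || (i == c) || cone3 (lg L a) (lg L b) (lg L c) (lg L i)

def wallOk (L : List V3) (j : Nat) (y : V3) : Bool :=
  decide (j < L.length) &&
  (List.range L.length).all fun i =>
    if i = j then decide (dt (lg L i) y < 0) else decide (0 < dt (lg L i) y)

def manyOk (L : List V3) (l : List (Nat × Int × Int × Int)) : Bool :=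
  decide (l.map Prod.fst).Nodup && decide (5 ≤ l.length) && l.all fun e => wallOk L e.1 e.2

def check : Tree → List V3 → List V3 → Bool
  | .bad a b c d, _, L =>
      decide (a < L.length) && decide (b < L.length) && decide (c < L.length) &&
      decide (d < L.length) && bad4 (lg L a) (lg L b) (lg L c) (lg L d)
  | .split p q, v :: vs, L => check p vs (L ++ [v]) && check q vs (L ++ [ng v])
  | .split _ _, [], _ => false
  | .tri a b c, [], L =>
      decide (a < L.length) && decide (b < L.length) && decide (c < L.length) && triOk L a b c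
  | .tri _ _ _, _ :: _, _ => false
  | .many l, [], L => manyOk L l
  | .many _, _ :: _, _ => false

/-- real pairing -/
noncomputable def rd (w : V3) (x : Fin 3 → ℝ) : ℝ := w.1 * x 0 + w.2.1 * x 1 + w.2.2 * x 2

lemma rd_ng (w : V3) (x : Fin 3 → ℝ) : rd (ng w) x = - rd w x := by
  simp only [rd, ng]; push_cast; ring

lemma bad4_false (p q r s : V3) (x : Fin 3 → ℝ) (h : bad4 p q r s = true)
    (hp : 0 < rd p x) (hq : 0 < rd q x) (hr : 0 < rd r x) (hs : 0 < rd s x) : False := by
  have key : (det q r s : ℝ) * rd p x - (det p r s : ℝ) * rd q x + (det p q s : ℝ) * rd r x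
      - (det p q r : ℝ) * rd s x = 0 := by
    simp only [rd, det]; push_cast; ring
  simp only [bad4, Bool.or_eq_true, Bool.and_eq_true, decide_eq_true_eq] at h
  rcases h with ⟨⟨⟨h1, h2⟩, h3⟩, h4⟩ | ⟨⟨⟨h1, h2⟩, h3⟩, h4⟩
  · have h1' : (0 : ℝ) < det q r s := by exact_mod_cast h1
    have h2' : (det p r s : ℝ) < 0 := by exact_mod_cast h2
    have h3' : (0 : ℝ) < det p q s := by exact_mod_cast h3
    have h4' : (det p q r : ℝ) < 0 := by exact_mod_cast h4
    have a1 := mul_pos h1' hp
    have a2 := mul_pos (neg_pos.2 h2') hq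
    have a3 := mul_pos h3' hr
    have a4 := mul_pos (neg_pos.2 h4') hs
    linarith
  · have h1' : (det q r s : ℝ) < 0 := by exact_mod_cast h1
    have h2' : (0 : ℝ) < det p r s := by exact_mod_cast h2
    have h3' : (det p q s : ℝ) < 0 := by exact_mod_cast h3
    have h4' : (0 : ℝ) < det p q r := by exact_mod_cast h4
    have a1 := mul_pos (neg_pos.2 h1') hp
    have a2 := mul_pos h2' hq
    have a3 := mul_pos (neg_pos.2 h3') hr
    have a4 := mul_pos h4' hs
    linarith

lemma cone3_pos (a b c w : V3) (x : Fin 3 → ℝ) (h : cone3 a b c w = true)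
    (ha : 0 < rd a x) (hb : 0 < rd b x) (hc : 0 < rd c x) : 0 < rd w x := by
  have key : (det a b c : ℝ) * rd w x = (det w b c : ℝ) * rd a x + (det a w c : ℝ) * rd b x
      + (det a b w : ℝ) * rd c x := by
    simp only [rd, det]; push_cast; ring
  simp only [cone3, Bool.or_eq_true, Bool.and_eq_true, decide_eq_true_eq] at h
  rcases h with ⟨⟨⟨h1, h2⟩, h3⟩, h4⟩ | ⟨⟨⟨h1, h2⟩, h3⟩, h4⟩
  · have h1' : (0 : ℝ) < det a b c := by exact_mod_cast h1
    have h2' : (0 : ℝ) < det w b c := by exact_mod_cast h2
    have h3' : (0 : ℝ) < det a w c := by exact_mod_cast h3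
    have h4' : (0 : ℝ) < det a b w := by exact_mod_cast h4
    have a1 := mul_pos h2' ha
    have a2 := mul_pos h3' hb
    have a3 := mul_pos h4' hc
    have : 0 < (det a b c : ℝ) * rd w x := by linarith
    exact (mul_pos_iff_of_pos_left h1').1 this
  · have h1' : (det a b c : ℝ) < 0 := by exact_mod_cast h1
    have h2' : (det w b c : ℝ) < 0 := by exact_mod_cast h2
    have h3' : (det a w c : ℝ) < 0 := by exact_mod_cast h3
    have h4' : (det a b w : ℝ) < 0 := by exact_mod_cast h4
    have a1 := mul_pos (neg_pos.2 h2') ha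
    have a2 := mul_pos (neg_pos.2 h3') hb
    have a3 := mul_pos (neg_pos.2 h4') hc
    have h5 : 0 < (-(det a b c : ℝ)) * rd w x := by linarith
    exact (mul_pos_iff_of_pos_left (neg_pos.2 h1')).1 h5

/-- what a leaf certifies about the walls of the region given by the signed vectors `L` -/
def Wall (L : List V3) (i : Nat) : Prop :=
  ∃ y : Fin 3 → ℝ, rd (lg L i) y < 0 ∧ ∀ j, j < L.length → j ≠ i → 0 < rd (lg L j) y

def Leaf (L : List V3) : Prop :=
  (∃ a b c : Nat, ∀ i, i < L.length → Wall L i → i = a ∨ i = b ∨ i = c) ∨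
  (∃ S : Finset Nat, 5 ≤ S.card ∧ ∀ i ∈ S, i < L.length ∧ Wall L i)

lemma triOk_leaf (L : List V3) (a b c : Nat) (h : triOk L a b c = true)
    (ha : a < L.length) (hb : b < L.length) (hc : c < L.length) : Leaf L := by
  left
  refine ⟨a, b, c, fun i hi hw => ?_⟩
  simp only [triOk, List.all_eq_true, List.mem_range, Bool.or_eq_true, beq_iff_eq] at h
  by_contra hcon
  push Not at hcon
  obtain ⟨h1, h2, h3⟩ := hcon
  have h4 : cone3 (lg L a) (lg L b) (lg L c) (lg L i) = true := by
    rcases h i hi with ((h | h) | h) | h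
    · exact absurd h h1
    · exact absurd h h2
    · exact absurd h h3
    · exact h
  obtain ⟨y, hy, hy2⟩ := hw
  have := cone3_pos _ _ _ _ y h4 (hy2 a ha (Ne.symm h1)) (hy2 b hb (Ne.symm h2))
    (hy2 c hc (Ne.symm h3))
  linarith

lemma wallOk_wall (L : List V3) (j : Nat) (y : V3) (h : wallOk L j y = true) :
    j < L.length ∧ Wall L j := by
  simp only [wallOk, Bool.and_eq_true, decide_eq_true_eq, List.all_eq_true, List.mem_range] at h
  obtain ⟨h1, h2⟩ := h
  refine ⟨h1, ![(y.1 : ℝ), y.2.1, y.2.2], ?_, ?_⟩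
  · have := h2 j h1
    simp only [if_true, decide_eq_true_eq] at this
    have h3 : ((dt (lg L j) y : Int) : ℝ) < 0 := by exact_mod_cast this
    simp only [dt] at h3
    push_cast at h3
    simpa [rd] using h3
  · intro i hi hij
    have := h2 i hi
    rw [if_neg hij, decide_eq_true_eq] at this
    have h3 : (0 : ℝ) < ((dt (lg L i) y : Int) : ℝ) := by exact_mod_cast this
    simp only [dt] at h3
    push_cast at h3
    simpa [rd] using h3

lemma manyOk_leaf (L : List V3) (l : List (Nat × Int × Int × Int)) (h : manyOk L l = true) :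
    Leaf L := by
  right
  simp only [manyOk, Bool.and_eq_true, decide_eq_true_eq, List.all_eq_true] at h
  obtain ⟨⟨h1, h2⟩, h3⟩ := h
  refine ⟨(l.map Prod.fst).toFinset, ?_, ?_⟩
  · rw [List.toFinset_card_of_nodup h1, List.length_map]
    exact h2
  · intro i hi
    rw [List.mem_toFinset, List.mem_map] at hi
    obtain ⟨e, he, rfl⟩ := hi
    exact wallOk_wall L e.1 e.2 (h3 e he)

lemma neg_iff_neg_of_pos_left_aux {a b : ℝ} (ha : 0 < a) (h : a * b < 0) : b < 0 := by
  by_contra hb
  exact absurd (mul_nonneg ha.le (not_lt.1 hb)) (not_le.2 h)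

lemma lg_mem {L : List V3} {i : Nat} (h : i < L.length) : lg L i ∈ L := by
  rw [lg, List.getD_eq_getElem _ _ h]
  exact List.getElem_mem h

lemma check_sound (x : Fin 3 → ℝ) : ∀ (t : Tree) (vs L : List V3), check t vs L = true →
    (∀ w ∈ L, 0 < rd w x) → (∀ v ∈ vs, rd v x ≠ 0) →
    ∃ M : List V3, Leaf (L ++ M) ∧
      List.Forall₂ (fun v w => (w = v ∨ w = ng v) ∧ 0 < rd w x) vs M
  | .bad a b c d, vs, L, h, hL, _ => by
      simp only [check, Bool.and_eq_true, decide_eq_true_eq] at h
      obtain ⟨⟨⟨⟨h1, h2⟩, h3⟩, h4⟩, h5⟩ := h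
      exact (bad4_false _ _ _ _ x h5 (hL _ (lg_mem h1)) (hL _ (lg_mem h2)) (hL _ (lg_mem h3))
        (hL _ (lg_mem h4))).elim
  | .split p q, v :: vs, L, h, hL, hv => by
      simp only [check, Bool.and_eq_true] at h
      rcases lt_or_gt_of_ne (hv v List.mem_cons_self) with h0 | h0
      · have h1 : 0 < rd (ng v) x := by rw [rd_ng]; linarith
        obtain ⟨M, hM, hF⟩ := check_sound x q vs (L ++ [ng v]) h.2
          (by
            intro w hw
            rw [List.mem_append, List.mem_singleton] at hw
            rcases hw with hw | rfl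
            · exact hL w hw
            · exact h1)
          (fun w hw => hv w (List.mem_cons_of_mem _ hw))
        refine ⟨ng v :: M, ?_, List.Forall₂.cons ⟨Or.inr rfl, h1⟩ hF⟩
        simpa using hM
      · obtain ⟨M, hM, hF⟩ := check_sound x p vs (L ++ [v]) h.1
          (by
            intro w hw
            rw [List.mem_append, List.mem_singleton] at hw
            rcases hw with hw | rfl
            · exact hL w hw
            · exact h0)
          (fun w hw => hv w (List.mem_cons_of_mem _ hw))
        refine ⟨v :: M, ?_, List.Forall₂.cons ⟨Or.inl rfl, h0⟩ hF⟩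
        simpa using hM
  | .split _ _, [], _, h, _, _ => by simp [check] at h
  | .tri a b c, [], L, h, _, _ => by
      simp only [check, Bool.and_eq_true, decide_eq_true_eq] at h
      obtain ⟨⟨⟨h1, h2⟩, h3⟩, h4⟩ := h
      refine ⟨[], ?_, List.Forall₂.nil⟩
      rw [List.append_nil]
      exact triOk_leaf L a b c h4 h1 h2 h3
  | .tri _ _ _, _ :: _, _, h, _, _ => by simp [check] at h
  | .many l, [], L, h, _, _ => by
      simp only [check] at h
      refine ⟨[], ?_, List.Forall₂.nil⟩
      rw [List.append_nil]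
      exact manyOk_leaf L l h
  | .many _, _ :: _, _, h, _, _ => by simp [check] at h

/-- the set of walls of the region of `x`, as in the frozen statement -/
theorem not_four (vs : List V3) (t : Tree) (ht : check t vs [] = true) (n : ℕ)
    (hn : vs.length = n) (v : Fin n → (Fin 3 → ℝ))
    (hv : ∀ (i : Fin n) (x : Fin 3 → ℝ), dotProduct (v i) x = rd (lg vs i) x)
    (x : Fin 3 → ℝ) (hx : ∀ i : Fin n, dotProduct (v i) x ≠ 0) :
    {i : Fin n | ∃ y : Fin 3 → ℝ,
              dotProduct (v i) x * dotProduct (v i) y < 0 ∧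
              ∀ j : Fin n, j ≠ i → 0 < dotProduct (v j) x * dotProduct (v j) y}.ncard ≠ 4 := by
  obtain ⟨M, hM, hF⟩ := check_sound x t vs [] ht (by simp) (by
    intro w hw
    obtain ⟨i, hi, rfl⟩ := List.mem_iff_getElem.1 hw
    have := hx ⟨i, hn ▸ hi⟩
    rw [hv] at this
    have e : lg vs i = vs[i] := by rw [lg, List.getD_eq_getElem _ _ hi]
    rw [← e]
    exact this)
  rw [List.nil_append] at hM
  have hlen : M.length = n := by rw [← hF.length_eq, hn]
  -- the signed vector at `i`
  have hsig : ∀ i, i < n → (lg M i = lg vs i ∨ lg M i = ng (lg vs i)) ∧ 0 < rd (lg M i) x := by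
    intro i hi
    have h1 : i < vs.length := hn ▸ hi
    have h2 : i < M.length := hlen ▸ hi
    have := (List.forall₂_iff_get.1 hF).2 i h1 h2
    have e1 : lg vs i = vs[i] := by rw [lg, List.getD_eq_getElem _ _ h1]
    have e2 : lg M i = M[i] := by rw [lg, List.getD_eq_getElem _ _ h2]
    rw [e1, e2]
    simpa using this
  have hpos : ∀ (i : Fin n) (y : Fin 3 → ℝ),
      dotProduct (v i) x * dotProduct (v i) y = rd (lg M i) x * rd (lg M i) y := by
    intro i y
    rw [hv, hv]
    rcases (hsig i i.2).1 with h | h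
    · rw [h]
    · rw [h, rd_ng, rd_ng]; ring
  have hset : {i : Fin n | ∃ y : Fin 3 → ℝ,
              dotProduct (v i) x * dotProduct (v i) y < 0 ∧
              ∀ j : Fin n, j ≠ i → 0 < dotProduct (v j) x * dotProduct (v j) y} =
      {i : Fin n | Wall M i} := by
    ext i
    simp only [Set.mem_ofPred_eq, Wall, hlen]
    constructor
    · rintro ⟨y, hy1, hy2⟩
      refine ⟨y, ?_, fun j hj hji => ?_⟩
      · rw [hpos] at hy1
        exact (neg_iff_neg_of_pos_left_aux (hsig i i.2).2 hy1)
      · have := hy2 ⟨j, hj⟩ (fun h => hji (by rw [← h]))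
        rw [hpos] at this
        exact (mul_pos_iff_of_pos_left (hsig j hj).2).1 this
    · rintro ⟨y, hy1, hy2⟩
      refine ⟨y, ?_, fun j hji => ?_⟩
      · rw [hpos]
        exact mul_neg_of_pos_of_neg (hsig i i.2).2 hy1
      · rw [hpos]
        exact mul_pos (hsig j j.2).2 (hy2 j j.2 (fun h => hji (Fin.ext h)))
  rw [hset]
  rcases hM with ⟨a, b, c, habc⟩ | ⟨S, hS, hS2⟩
  · intro h4
    have hsub : (Fin.val '' {i : Fin n | Wall M i}) ⊆ (({a, b, c} : Finset ℕ) : Set ℕ) := by
      rintro _ ⟨i, hi, rfl⟩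
      have := habc i (by rw [hlen]; exact i.2) hi
      simpa using this
    have h5 := Set.ncard_le_ncard hsub (Finset.finite_toSet _)
    rw [Set.ncard_image_of_injective _ Fin.val_injective, h4, Set.ncard_coe_finset] at h5
    have := Finset.card_le_three (a := a) (b := b) (c := c)
    omega
  · intro h4
    have hsub : (S : Set ℕ) ⊆ (Fin.val '' {i : Fin n | Wall M i}) := by
      intro i hi
      obtain ⟨h1, h2⟩ := hS2 i hi
      exact ⟨⟨i, hlen ▸ h1⟩, h2, rfl⟩
    have h5 := Set.ncard_le_ncard hsub (Set.toFinite _)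
    rw [Set.ncard_image_of_injective _ Fin.val_injective, h4, Set.ncard_coe_finset] at h5
    omega

end Pool.Agent.H79R2.Quad
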